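import Pool.Agent.H77.RZ.UPM
import Pool.Agent.H75.PRL.S1

/-!
# PRL, module TYM: the types are multiplicative and depend only on the class
-/

set_option autoImplicit false

namespace Pool.Agent.H33.PRL

open Polynomial Matrix Pool.AVR Pool.AVS Pool.RZ Pool.PRL

/-- In a finite field the product of two nonsquares is a square. -/
theorem isSquare_mul_of_not {k : Type} [Field k] [Finite k] (a b : k) (ha : ¬ IsSquare a)
    (hb : ¬ IsSquare b) : IsSquare (a * b) := by
  classical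
  have hf := Fintype.ofFinite k
  have h2 : ringChar k ≠ 2 := by
    intro h2
    exact ha (FiniteField.isSquare_of_char_two h2 a)
  have hab : a ≠ 0 := by
    rintro rfl
    exact ha (IsSquare.zero)
  have hb0 : b ≠ 0 := by
    rintro rfl
    exact hb (IsSquare.zero)
  have h3 := (quadraticChar_neg_one_iff_not_isSquare (F := k) (a := a)).2 ha
  have h4 := (quadraticChar_neg_one_iff_not_isSquare (F := k) (a := b)).2 hb
  have h5 : quadraticChar k (a * b) = 1 := by
    rw [map_mul, h3, h4]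
    norm_num
  exact (quadraticChar_one_iff_isSquare (mul_ne_zero hab hb0)).1 h5

/-- Squares and products in a finite field. -/
theorem isSquare_mul_iff {k : Type} [Field k] [Finite k] (a b : k) (ha : a ≠ 0)
    (hb : b ≠ 0) : IsSquare (a * b) ↔ (IsSquare a ↔ IsSquare b) := by
  constructor
  · intro h
    constructor
    · intro h1
      have h2 : b = (a * b) * a * (a⁻¹) ^ 2 := by field_simp
      rw [h2]
      exact (h.mul h1).mul (IsSquare.sq _)
    · intro h1
      have h2 : a = (a * b) * b * (b⁻¹) ^ 2 := by field_simp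
      rw [h2]
      exact (h.mul h1).mul (IsSquare.sq _)
  · intro h
    by_cases h1 : IsSquare a
    · exact h1.mul (h.1 h1)
    · exact isSquare_mul_of_not a b h1 (fun h2 => h1 (h.2 h2))

variable {F : Type} [Field F]

/-- Squares modulo `P` and squares in the residue field. -/
theorem sqM_iff (P : F[X]) (a : F[X]) : SqM P a ↔ IsSquare (AdjoinRoot.mk P a) := by
  constructor
  · rintro ⟨w, hw⟩
    refine ⟨AdjoinRoot.mk P w, ?_⟩
    rw [← pow_two, ← map_pow, ← sub_eq_zero, ← map_sub, AdjoinRoot.mk_eq_zero]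
    exact hw
  · rintro ⟨w, hw⟩
    obtain ⟨v, rfl⟩ := AdjoinRoot.mk_surjective w
    refine ⟨v, ?_⟩
    rw [← AdjoinRoot.mk_eq_zero, map_sub, map_pow, hw, pow_two, sub_self]

/-- Squares and products modulo `P`. -/
theorem sqM_mul [Finite F] {P : F[X]} (hPm : P.Monic) (hP : Irreducible P) (a b : F[X])
    (ha : ¬ P ∣ a) (hb : ¬ P ∣ b) : SqM P (a * b) ↔ (SqM P a ↔ SqM P b) := by
  have : Fact (Irreducible P) := ⟨hP⟩
  have hfin : Module.Finite F (AdjoinRoot P) := (AdjoinRoot.powerBasis' hPm).finite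
  have : Finite (AdjoinRoot P) := Module.finite_of_finite F
  rw [sqM_iff, sqM_iff, sqM_iff, map_mul]
  refine isSquare_mul_iff _ _ ?_ ?_
  · rwa [Ne, AdjoinRoot.mk_eq_zero]
  · rwa [Ne, AdjoinRoot.mk_eq_zero]

/-- A factor which is a square unit does not matter. -/
theorem sqM_sq [Finite F] {P : F[X]} (hPm : P.Monic) (hP : Irreducible P) (a b : F[X])
    (ha : ¬ P ∣ a) (hb : ¬ P ∣ b) : SqM P (a * b ^ 2) ↔ SqM P a := by
  rw [sqM_mul hPm hP a (b ^ 2) ha (fun h => hb (hP.prime.dvd_of_dvd_pow h))]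
  have : SqM P (b ^ 2) := ⟨b, by rw [sub_self]; exact dvd_zero _⟩
  constructor
  · intro h
    exact h.2 this
  · intro h
    exact ⟨fun _ => this, fun _ => h⟩

theorem zmod2_add (a b : ZMod 2) : a + b = 0 ↔ (a = 0 ↔ b = 0) := by
  revert a b
  decide

theorem zmod2_cases (a b : ZMod 2) :
    a.val + b.val = (a + b).val ∨ (a.val = 1 ∧ b.val = 1 ∧ (a + b).val = 0) := by
  revert a b
  decide

theorem tym (hSPU : SPUStmt) : TYMStmt := by
  intro F _ _ P f hPm hP
  obtain ⟨hU1, hU2, -, -⟩ := upm_thm F P f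
  obtain ⟨hS1, hS2⟩ := hSPU F P f hPm hP
  refine ⟨?_, ?_, ?_, ?_⟩
  · rintro x y h h' ⟨e, β, γ, s, p, hSpl, hs, hU, hsq⟩ ⟨e', β', γ', s', p', hSpl', hs', hU', hsq'⟩
    obtain ⟨rfl, rfl, rfl⟩ := hS1 e β γ e' β' γ' hSpl hSpl'
    obtain ⟨hQ, -, hev, hcop, -⟩ := hS2 e β γ hSpl
    have hpe := hev p hU
    have hpe' := hev p' hU'
    have hmul : ∀ {a b : F[X]}, ¬ P ∣ a → ¬ P ∣ b → ¬ P ∣ a * b := fun ha hb h0 =>
      (hP.prime.dvd_or_dvd h0).elim ha hb
    have hpow : ∀ {a : F[X]} (n : ℕ), ¬ P ∣ a → ¬ P ∣ a ^ n := fun n ha h0 =>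
      ha (hP.prime.dvd_of_dvd_pow h0)
    have hkey : (x + y).2 = 0 ↔ SqM P ((p * p').eval e *
        (e ^ 2 + β * e + γ) ^ (x.1.val + y.1.val)) := by
      have h1 : (p * p').eval e * (e ^ 2 + β * e + γ) ^ (x.1.val + y.1.val) =
          (p.eval e * (e ^ 2 + β * e + γ) ^ x.1.val) *
            (p'.eval e * (e ^ 2 + β * e + γ) ^ y.1.val) := by
        rw [eval_mul, pow_add]
        ring
      rw [h1, sqM_mul hPm hP _ _ (hmul hpe (hpow _ hQ)) (hmul hpe' (hpow _ hQ)), ← hsq, ← hsq',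
        Prod.snd_add, zmod2_add]
    rcases zmod2_cases x.1 y.1 with hc | ⟨hx, hy, hc⟩
    · refine ⟨e, β, γ, s * s', p * p', hSpl, ?_, hU1 p p' hU hU', ?_⟩
      · obtain ⟨a, ha⟩ := hs
        obtain ⟨b, hb⟩ := hs'
        rw [Prod.fst_add, ← hc, pow_add]
        refine ⟨a * (h' * s' ^ 2) + b * lf (vp P β γ ^ x.1.val * p), ?_⟩
        have h2 : lf (vp P β γ ^ x.1.val * vp P β γ ^ y.1.val * (p * p')) =
            lf (vp P β γ ^ x.1.val * p) * lf (vp P β γ ^ y.1.val * p') := by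
          rw [← Polynomial.map_mul]
          congr 1
          ring
        rw [h2]
        linear_combination (h' * s' ^ 2) * ha + lf (vp P β γ ^ x.1.val * p) * hb
      · rw [Prod.fst_add, ← hc]
        exact hkey
    · obtain ⟨v, u, hv⟩ := hcop
      refine ⟨e, β, γ, s * s' * v, p * p', hSpl, ?_, hU1 p p' hU hU', ?_⟩
      · obtain ⟨a, ha⟩ := hs
        obtain ⟨b, hb⟩ := hs'
        rw [hx, pow_one] at ha
        rw [hy, pow_one] at hb
        rw [Prod.fst_add, hc, pow_zero, one_mul]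
        have h2 : lf (p * p') = lf p * lf p' := Polynomial.map_mul _
        have h3 : lf (vp P β γ * p) = lf (vp P β γ) * lf p := Polynomial.map_mul _
        have h4 : lf (vp P β γ * p') = lf (vp P β γ) * lf p' := Polynomial.map_mul _
        rw [h3] at ha
        rw [h4] at hb
        rw [h2]
        refine ⟨a * (h' * s' ^ 2) * v ^ 2 + b * (lf (vp P β γ) * lf p) * v ^ 2 -
          u * (1 + v * lf (vp P β γ)) * (lf p * lf p'), ?_⟩
        linear_combination (h' * s' ^ 2) * v ^ 2 * ha + (lf (vp P β γ) * lf p) * v ^ 2 * hb +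
          (1 + v * lf (vp P β γ)) * (lf p * lf p') * hv
      · rw [Prod.fst_add, hc, pow_zero, mul_one, hkey, hx, hy]
        have h5 : (1 : ℕ) + 1 = 2 := rfl
        rw [h5]
        refine sqM_sq hPm hP _ _ ?_ hQ
        rw [eval_mul]
        exact hmul hpe hpe'
  · rintro x h h' u ⟨e, β, γ, s, p, hSpl, hs, hU, hsq⟩ ⟨v, w, hv⟩ ⟨b, hb⟩
    obtain ⟨a, ha⟩ := hs
    refine ⟨e, β, γ, s * v, p, hSpl, ?_, hU, hsq⟩
    refine ⟨a + b * (s * v) ^ 2 - w * (1 + v * u) * h * s ^ 2, ?_⟩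
    linear_combination ha + (s * v) ^ 2 * hb + (1 + v * u) * h * s ^ 2 * hv
  · rintro ⟨e, β, γ, hSpl⟩ h
    have h0 : ((0, 0) : Ty).1.val = 0 := rfl
    have h1 : ((0, 1) : Ty).1.val = 0 := rfl
    constructor
    · rintro ⟨s, p, hs, hU⟩
      by_cases hsq : SqM P (p.eval e)
      · left
        refine ⟨e, β, γ, s, p, hSpl, ?_, hU, ?_⟩
        · rw [h0, pow_zero, one_mul]
          exact hs
        · rw [h0, pow_zero, mul_one]
          exact ⟨fun _ => hsq, fun _ => rfl⟩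
      · right
        refine ⟨e, β, γ, s, p, hSpl, ?_, hU, ?_⟩
        · rw [h1, pow_zero, one_mul]
          exact hs
        · rw [h1, pow_zero, mul_one]
          exact ⟨fun h2 => absurd h2 (by decide), fun h2 => absurd h2 hsq⟩
    · rintro (⟨e, β, γ, s, p, hSpl, hs, hU, hsq⟩ | ⟨e, β, γ, s, p, hSpl, hs, hU, hsq⟩)
      · rw [h0, pow_zero, one_mul] at hs
        exact ⟨s, p, hs, hU⟩
      · rw [h1, pow_zero, one_mul] at hs
        exact ⟨s, p, hs, hU⟩
  · rintro ⟨e, β, γ, hSpl⟩ h ⟨s, p, hs⟩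
    have h0 : ((0, 0) : Ty).1.val = 0 := rfl
    refine ⟨e, β, γ, s, 1 + C P * p, hSpl, ?_, hU2 p, ?_⟩
    · rw [h0, pow_zero, one_mul]
      exact hs
    · rw [h0, pow_zero, mul_one]
      refine ⟨fun _ => ⟨1, p.eval e, ?_⟩, fun _ => rfl⟩
      rw [eval_add, eval_mul, eval_C, eval_one]
      ring

end Pool.Agent.H33.PRL
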