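import Pool.Agent.H69.RZ.USE
import Pool.Agent.H54.RZ.NUN
import Pool.Agent.H55.PRL.TYP
import Pool.Agent.H33.PRL.TYM

/-!
# PRL, module EXI: existence of the types
-/

set_option autoImplicit false

namespace Pool.Agent.H33.PRL

open Polynomial Matrix Pool.AVR Pool.AVS Pool.RZ Pool.PRL

/-- Over a finite field there is a polynomial with value `1` at `e` and given norm in the
quadratic algebra. -/
theorem exists_norm {k : Type} [Field k] [Finite k] (e β γ : k)
    (hirr : ∀ x : k, x ^ 2 + β * x + γ ≠ 0) (c : k) (hc : c ≠ 0) :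
    ∃ p : k[X], p.eval e = 1 ∧
      Algebra.norm k (AdjoinRoot.mk (X ^ 2 + C β * X + C γ) p) = c := by
  have hQ := SQ.q_irr β γ hirr
  have : Fact (Irreducible (X ^ 2 + C β * X + C γ : k[X])) := ⟨hQ⟩
  have hfin : Module.Finite k (AdjoinRoot (X ^ 2 + C β * X + C γ : k[X])) :=
    (SQ.q_monic β γ).finite_adjoinRoot
  have : Finite (AdjoinRoot (X ^ 2 + C β * X + C γ : k[X])) := Module.finite_of_finite k
  obtain ⟨w, hw⟩ := FiniteField.unitsMap_norm_surjective k
    (AdjoinRoot (X ^ 2 + C β * X + C γ : k[X])) (Units.mk0 c hc)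
  obtain ⟨p0, hp0⟩ := AdjoinRoot.mk_surjective (w : AdjoinRoot (X ^ 2 + C β * X + C γ : k[X]))
  refine ⟨p0 + C ((1 - p0.eval e) / (e ^ 2 + β * e + γ)) * (X ^ 2 + C β * X + C γ), ?_, ?_⟩
  · have h1 := hirr e
    simp only [eval_add, eval_mul, eval_C, eval_pow, eval_X]
    rw [div_mul_cancel₀ _ h1]
    ring
  · have h1 : AdjoinRoot.mk (X ^ 2 + C β * X + C γ : k[X])
        (p0 + C ((1 - p0.eval e) / (e ^ 2 + β * e + γ)) * (X ^ 2 + C β * X + C γ)) =
        AdjoinRoot.mk (X ^ 2 + C β * X + C γ : k[X]) p0 :=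
      AdjoinRoot.mk_eq_mk.2 ⟨C ((1 - p0.eval e) / (e ^ 2 + β * e + γ)), by ring⟩
    rw [h1, hp0]
    have h2 := congrArg Units.val hw
    exact h2

variable {F : Type} [Field F]

/-- There is a unit `p` modulo `(P, f)` whose norm times its value at `e` is given modulo `P`
(the value being `1`). -/
theorem exists_unit [Finite F] {P : F[X]} (hPm : P.Monic) (hP : Irreducible P)
    (f : F[X] × F[X] × F[X]) (e β γ : F[X]) (hSpl : Spl P f e β γ) (c : F[X]) (hc : ¬ P ∣ c) :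
    ∃ (p : F[X][X]) (ν : F[X]), P ∣ p.eval e - 1 ∧
      Algebra.norm (RatFunc F) (AdjoinRoot.mk (cubK f) (lf p)) = rf ν ∧ P ∣ ν - c := by
  have : Fact (Irreducible P) := ⟨hP⟩
  set k := AdjoinRoot P with hk
  set φ : F[X] →+* k := AdjoinRoot.mk P with hφ
  have hφs : Function.Surjective φ := AdjoinRoot.mk_surjective
  have hφ0 : ∀ x, φ x = 0 ↔ P ∣ x := fun x => AdjoinRoot.mk_eq_zero
  have hfin : Module.Finite F k := (AdjoinRoot.powerBasis' hPm).finite
  have : Finite k := Module.finite_of_finite F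
  obtain ⟨hirr0, hf1, hf2, hf3, -, -, -⟩ := hSpl
  have ha : φ f.1 = φ β - φ e := by
    rw [← map_sub, ← sub_eq_zero, ← map_sub, hφ0]
    exact hf1
  have hb : φ f.2.1 = φ γ - φ e * φ β := by
    rw [← map_mul, ← map_sub, ← sub_eq_zero, ← map_sub, hφ0]
    exact hf2
  have hcc : φ f.2.2 = -(φ e * φ γ) := by
    rw [eq_neg_iff_add_eq_zero, ← map_mul, ← map_add, hφ0]
    exact hf3
  have hirr : ∀ x : k, x ^ 2 + φ β * x + φ γ ≠ 0 := by
    intro x h0
    obtain ⟨y, rfl⟩ := hφs x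
    rw [← map_pow, ← map_mul, ← map_add, ← map_add, hφ0] at h0
    exact hirr0 y h0
  obtain ⟨p0, hp0, hn⟩ := exists_norm (φ e) (φ β) (φ γ) hirr (φ c) (fun h => hc ((hφ0 c).1 h))
  obtain ⟨p, hp⟩ := Polynomial.map_surjective φ hφs p0
  obtain ⟨ν, hν, hνc⟩ := TYP.norm_red φ f p
  refine ⟨p, ν, ?_, hν, ?_⟩
  · rw [← hφ0, map_sub, map_one, ← eval_map_apply, hp, hp0, sub_self]
  · obtain ⟨-, h1, -⟩ := qf_thm k (φ e) (φ β) (φ γ) p0
    rw [hp0, one_mul, hn] at h1
    rw [← hφ0, map_sub, ← hνc, ha, hb, hcc, hp, h1, sub_self]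

theorem lf_C_mul (a : F[X]) (p : F[X][X]) : lf (C a * p) = C (rf a) * lf p := by
  rw [lf, lf, Polynomial.map_mul, map_C]

theorem norm_C_mul (f : F[X] × F[X] × F[X]) (x : RatFunc F) (q : (RatFunc F)[X]) :
    Algebra.norm (RatFunc F) (AdjoinRoot.mk (cubK f) (C x * q)) =
      x ^ 3 * Algebra.norm (RatFunc F) (AdjoinRoot.mk (cubK f) q) := by
  have h : AdjoinRoot.mk (cubK f) (C x * q) = x • AdjoinRoot.mk (cubK f) q := by
    rw [map_mul, AdjoinRoot.mk_C, Algebra.smul_def]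
    rfl
  have hd : Module.finrank (RatFunc F) (AdjoinRoot (cubK f)) = 3 := by
    rw [(AdjoinRoot.powerBasis' (USE.cubK_monic f)).finrank, AdjoinRoot.powerBasis'_dim]
    unfold cubK cub
    compute_degree!
  rw [h, Algebra.smul_def, map_mul, Algebra.norm_algebraMap, hd]

theorem exi (hSPU : SPUStmt) (hNUN : NUNStmt) : EXIStmt := by
  intro F _ _ h2 P f hPm hP ⟨e, β, γ, hSpl⟩ x hx
  have : Fact (Irreducible P) := ⟨hP⟩
  have hfin : Module.Finite F (AdjoinRoot P) := (AdjoinRoot.powerBasis' hPm).finite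
  have : Finite (AdjoinRoot P) := Module.finite_of_finite F
  obtain ⟨hS1, hS2⟩ := hSPU F P f hPm hP
  obtain ⟨hQ, -, hev, hcop, νv, hνv, hνv0, hνvs⟩ := hS2 e β γ hSpl
  have hmul : ∀ {a b : F[X]}, ¬ P ∣ a → ¬ P ∣ b → ¬ P ∣ a * b := fun ha hb h0 =>
    (hP.prime.dvd_or_dvd h0).elim ha hb
  have hP1 : ¬ P ∣ (1 : F[X]) := fun h => hP.not_isUnit (isUnit_of_dvd_one h)
  have hcong : ∀ {a b : F[X]}, P ∣ a - b → (SqM P a ↔ SqM P b) := by
    intro a b hab
    have h1 : AdjoinRoot.mk P a = AdjoinRoot.mk P b := AdjoinRoot.mk_eq_mk.2 hab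
    rw [sqM_iff, sqM_iff, h1]
  have hnd : ∀ {a b : F[X]}, P ∣ a - b → ¬ P ∣ b → ¬ P ∣ a := by
    intro a b hab hb ha
    apply hb
    have := dvd_sub ha hab
    rwa [sub_sub_cancel] at this
  -- the class attached to `p` and a norm `ν`
  have hunit : ∀ (c : F[X]), ¬ P ∣ c → ∃ (p : F[X][X]) (ν : F[X]), P ∣ p.eval e - 1 ∧
      Algebra.norm (RatFunc F) (AdjoinRoot.mk (cubK f) (lf p)) = rf ν ∧ P ∣ ν - c :=
    fun c hc => exists_unit hPm hP f e β γ hSpl c hc
  -- units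
  have hUn : ∀ (p : F[X][X]) (ν : F[X]),
      Algebra.norm (RatFunc F) (AdjoinRoot.mk (cubK f) (lf p)) = rf ν → ¬ P ∣ ν → UnP P f p := by
    intro p ν hν hν0
    obtain ⟨-, ν', hν', -, hU⟩ := hNUN F f p
    have h3 : ν' = ν := by
      apply IsFractionRing.injective F[X] (RatFunc F)
      exact hν'.symm.trans hν
    exact (hU P hP).2 (h3 ▸ hν0)
  have hrf0 : ∀ {a : F[X]}, ¬ P ∣ a → rf a ≠ 0 := by
    intro a ha h0
    apply ha
    have h3 : a = 0 := by
      apply IsFractionRing.injective F[X] (RatFunc F)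
      rw [map_zero]
      exact h0
    rw [h3]
    exact dvd_zero _
  rcases hx with rfl | rfl
  · -- type `(0, 1)`
    have hchar : ringChar (AdjoinRoot P) ≠ 2 := by
      intro h
      have h3 : (2 : AdjoinRoot P) = 0 := by
        have := (ringChar.spec (AdjoinRoot P) 2).2 (by rw [h])
        exact_mod_cast this
      apply h2
      apply (algebraMap F (AdjoinRoot P)).injective
      rw [map_ofNat, map_zero, h3]
    obtain ⟨w, hw⟩ := FiniteField.exists_nonsquare hchar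
    obtain ⟨c, rfl⟩ := AdjoinRoot.mk_surjective w
    have hc : ¬ P ∣ c := by
      intro h0
      apply hw
      rw [AdjoinRoot.mk_eq_zero.2 h0]
      exact IsSquare.zero
    obtain ⟨p, ν, hp, hν, hνc⟩ := hunit c hc
    have hν0 : ¬ P ∣ ν := hnd hνc hc
    refine ⟨lf (C ν * p), ?_, ?_, e, β, γ, 1, C ν * p, hSpl, ?_, ?_, ?_⟩
    · apply USE.coprime_of_norm _ _ (USE.cubK_monic f)
      rw [lf_C_mul, norm_C_mul, hν]
      exact mul_ne_zero (pow_ne_zero _ (hrf0 hν0)) (hrf0 hν0)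
    · rw [lf_C_mul, norm_C_mul, hν]
      exact ⟨rf ν ^ 2, by ring⟩
    · have h0 : ((0, 1) : Ty).1.val = 0 := rfl
      rw [h0, pow_zero, one_mul, one_pow, mul_one, sub_self]
      exact dvd_zero _
    · refine hUn _ (ν ^ 3 * ν) ?_ (hmul (fun h => hν0 (hP.prime.dvd_of_dvd_pow h)) hν0)
      rw [lf_C_mul, norm_C_mul, hν, rf, rf, map_mul, map_pow]
    · have h0 : ((0, 1) : Ty).1.val = 0 := rfl
      rw [h0, pow_zero, mul_one, eval_mul, eval_C]
      refine ⟨fun h => absurd h (by decide), fun h => absurd ?_ hw⟩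
      rw [← sqM_iff]
      refine (hcong ?_).1 h
      have h3 : ν * p.eval e - c = ν * (p.eval e - 1) + (ν - c) := by ring
      rw [h3]
      exact dvd_add (hp.mul_left _) hνc
  · -- type `(1, 0)`
    obtain ⟨p, ν, hp, hν, hνc⟩ := hunit (e ^ 2 + β * e + γ) hQ
    have hν0 : ¬ P ∣ ν := hnd hνc hQ
    have hrfP : rf P ≠ 0 := by
      intro h0
      apply hP.ne_zero
      apply IsFractionRing.injective F[X] (RatFunc F)
      rw [map_zero]
      exact h0
    have hNvp : Algebra.norm (RatFunc F) (AdjoinRoot.mk (cubK f) (lf (vp P β γ * p))) =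
        rf (P ^ 2 * (νv * ν)) := by
      have h3 : lf (vp P β γ * p) = lf (vp P β γ) * lf p := Polynomial.map_mul _
      rw [h3, map_mul, map_mul, hνv, hν, rf, rf, rf, ← map_mul]
      congr 1
      ring
    have hn0 : rf (P ^ 2 * (νv * ν)) ≠ 0 := by
      rw [rf, map_mul, map_pow]
      exact mul_ne_zero (pow_ne_zero _ hrfP) (hrf0 (hmul hνv0 hν0))
    refine ⟨lf (C (P ^ 2 * (νv * ν)) * (vp P β γ * p)), ?_, ?_, e, β, γ, C (rf P)⁻¹,
      C (νv * ν) * p, hSpl, ?_, ?_, ?_⟩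
    · apply USE.coprime_of_norm _ _ (USE.cubK_monic f)
      rw [lf_C_mul, norm_C_mul, hNvp]
      exact mul_ne_zero (pow_ne_zero _ hn0) hn0
    · rw [lf_C_mul, norm_C_mul, hNvp]
      exact ⟨rf (P ^ 2 * (νv * ν)) ^ 2, by ring⟩
    · have h0 : ((1, 0) : Ty).1.val = 1 := rfl
      rw [h0, pow_one]
      have h3 : lf (C (P ^ 2 * (νv * ν)) * (vp P β γ * p)) * C (rf P)⁻¹ ^ 2 -
          lf (vp P β γ * (C (νv * ν) * p)) = 0 := by
        have h4 : lf (vp P β γ * (C (νv * ν) * p)) = C (rf (νv * ν)) * lf (vp P β γ * p) := by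
          rw [← lf_C_mul]
          congr 1
          ring
        have h5 : C (rf (P ^ 2 * (νv * ν))) * C (rf P)⁻¹ ^ 2 = C (rf (νv * ν)) := by
          rw [← C_pow, ← C_mul]
          congr 1
          rw [rf, rf, rf, map_mul, map_pow]
          field_simp
        rw [h4, lf_C_mul, ← h5]
        ring
      rw [h3]
      exact dvd_zero _
    · refine hUn _ ((νv * ν) ^ 3 * ν) ?_ (hmul (fun h =>
        (hmul hνv0 hν0) (hP.prime.dvd_of_dvd_pow h)) hν0)
      rw [lf_C_mul, norm_C_mul, hν, rf, rf, rf, map_mul, map_mul, map_pow, map_mul]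
    · have h0 : ((1, 0) : Ty).1.val = 1 := rfl
      rw [h0, pow_one, eval_mul, eval_C]
      refine ⟨fun _ => ?_, fun _ => rfl⟩
      have h3 : P ∣ νv * ν * p.eval e * (e ^ 2 + β * e + γ) -
          νv * (e ^ 2 + β * e + γ) ^ 2 := by
        have h4 : νv * ν * p.eval e * (e ^ 2 + β * e + γ) - νv * (e ^ 2 + β * e + γ) ^ 2 =
            νv * (e ^ 2 + β * e + γ) * (ν * (p.eval e - 1) + (ν - (e ^ 2 + β * e + γ))) := by
          ring
        rw [h4]
        exact (dvd_add (hp.mul_left _) hνc).mul_left _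
      rw [hcong h3]
      exact (sqM_sq hPm hP _ _ hνv0 hQ).2 hνvs

end Pool.Agent.H33.PRL
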